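import Pool.Agent.Q266.W4B

/-!
The wheel `W_4` with four rim vertices has homomorphism threshold at most `49/100`, while its
blowup threshold equals `1/2`.  So the two thresholds differ.
-/

namespace Pool.Agent.Results.MP_dfc8ea_co.WheelCounterexample

open Pool.Agent.Q266.Thresh

theorem result : deltaHom W4 ≤ 49 / 100 ∧ deltaB W4 = 1 / 2 :=
  ⟨Pool.Agent.Q266.W4.deltaHom_le, Pool.Agent.Q266.W4.deltaB_eq⟩

end Pool.Agent.Results.MP_dfc8ea_co.WheelCounterexample
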